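import Pool.Agent.Y234.GS.StmA

/-!
# Project GS: filtered Cech complexes are exact in low weights
-/

set_option autoImplicit false

namespace Pool.Agent.Y37.GS

open Pool.Agent.Y234.GS

section ddl

variable {ι : Type} [LinearOrder ι] {A B : Type} [AddCommGroup A] [AddCommGroup B]

/-- the sign -/
private def sg (i : ι) (S : Finset ι) : ℤ := (-1 : ℤ) ^ (S.filter (fun u => u < i)).card

private theorem dd_def (c : Finset ι → A) (S : Finset ι) :
    dd c S = ∑ i ∈ S, sg i S • c (S.erase i) := rfl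

private theorem sg_sq (i : ι) (S : Finset ι) : sg i S * sg i S = 1 := by
  unfold sg
  rw [← mul_pow]
  norm_num

private theorem sg_erase_self (i : ι) (S : Finset ι) : sg i (S.erase i) = sg i S := by
  unfold sg
  congr 2
  ext u
  simp only [Finset.mem_filter, Finset.mem_erase]
  constructor
  · rintro ⟨⟨_, h⟩, h'⟩
    exact ⟨h, h'⟩
  · rintro ⟨h, h'⟩
    exact ⟨⟨ne_of_lt h', h⟩, h'⟩

private theorem sg_insert_self (i : ι) (S : Finset ι) : sg i (insert i S) = sg i S := by
  unfold sg
  congr 2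
  ext u
  simp only [Finset.mem_filter, Finset.mem_insert]
  constructor
  · rintro ⟨h | h, h'⟩
    · exact absurd h (ne_of_lt h')
    · exact ⟨h, h'⟩
  · rintro ⟨h, h'⟩
    exact ⟨Or.inr h, h'⟩

private theorem sg_erase (i k : ι) (S : Finset ι) (hi : i ∈ S) :
    sg k (S.erase i) = sg k S * (if i < k then -1 else 1) := by
  unfold sg
  by_cases h : i < k
  · rw [if_pos h, Finset.filter_erase]
    have hm : i ∈ S.filter (fun u => u < k) := Finset.mem_filter.2 ⟨hi, h⟩
    have h1 : ((S.filter (fun u => u < k)).erase i).card + 1 = (S.filter (fun u => u < k)).card :=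
      Finset.card_erase_add_one hm
    rw [← h1, pow_succ]
    ring
  · rw [if_neg h, mul_one]
    congr 2
    ext u
    simp only [Finset.mem_filter, Finset.mem_erase]
    constructor
    · rintro ⟨⟨_, h⟩, h'⟩
      exact ⟨h, h'⟩
    · rintro ⟨h2, h'⟩
      refine ⟨⟨?_, h2⟩, h'⟩
      rintro rfl
      exact h h'

private theorem dd_dd (c : Finset ι → A) (T : Finset ι) : dd (dd c) T = 0 := by
  classical
  simp only [dd_def, Finset.smul_sum, smul_smul]
  rw [Finset.sum_sigma']
  refine Finset.sum_involution (fun p _ => (⟨p.2, p.1⟩ : Σ _ : ι, ι)) ?_ ?_ ?_ ?_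
  · rintro ⟨i, k⟩ hp
    simp only [Finset.mem_sigma, Finset.mem_erase] at hp
    obtain ⟨hi, hki, hk⟩ := hp
    simp only
    rw [Finset.erase_right_comm, sg_erase i k T hi, sg_erase k i T hk, ← add_smul]
    have h0 : sg i T * (sg k T * if i < k then -1 else 1) +
        sg k T * (sg i T * if k < i then -1 else 1) = 0 := by
      rcases lt_or_gt_of_ne hki with h | h
      · rw [if_neg (not_lt.2 h.le), if_pos h]
        ring
      · rw [if_pos h, if_neg (not_lt.2 h.le)]
        ring
    rw [h0, zero_smul]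
  · rintro ⟨i, k⟩ hp _ h
    simp only [Finset.mem_sigma, Finset.mem_erase] at hp
    exact hp.2.1 (congrArg Sigma.fst h)
  · rintro ⟨i, k⟩ hp
    simp only [Finset.mem_sigma, Finset.mem_erase] at hp ⊢
    exact ⟨hp.2.2, hp.2.1.symm, hp.1⟩
  · rintro ⟨i, k⟩ _
    rfl

private theorem dd_map (φ : A →+ B) (c : Finset ι → A) (T : Finset ι) :
    dd (fun S => φ (c S)) T = φ (dd c T) := by
  simp only [dd_def, map_sum, map_zsmul]

private theorem dd_sub (c c' : Finset ι → A) (T : Finset ι) :
    dd (fun S => c S - c' S) T = dd c T - dd c' T := by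
  simp only [dd_def, smul_sub, Finset.sum_sub_distrib]

private theorem dd_congr (c c' : Finset ι → A) (T : Finset ι)
    (h : ∀ i ∈ T, c (T.erase i) = c' (T.erase i)) : dd c T = dd c' T := by
  simp only [dd_def]
  exact Finset.sum_congr rfl fun i hi => by rw [h i hi]

private theorem dd_homotopy (k : ι) (c : Finset ι → A) (S : Finset ι) :
    dd (fun T => if k ∈ T then 0 else sg k T • c (insert k T)) S +
      (if k ∈ S then 0 else sg k S • dd c (insert k S)) = c S := by
  classical
  by_cases hk : k ∈ S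
  · rw [if_pos hk, add_zero, dd_def, Finset.sum_eq_single k]
    · rw [if_neg (Finset.notMem_erase k S), Finset.insert_erase hk, smul_smul, sg_erase_self,
        sg_sq, one_smul]
    · intro i hi hik
      rw [if_pos (Finset.mem_erase.2 ⟨hik.symm, hk⟩), smul_zero]
    · intro h
      exact absurd hk h
  · rw [if_neg hk, dd_def, dd_def, Finset.sum_insert hk, smul_add, smul_smul, sg_insert_self,
      sg_sq, one_smul, Finset.erase_insert hk]
    rw [add_comm, add_assoc, Finset.smul_sum, ← Finset.sum_add_distrib]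
    rw [Finset.sum_eq_zero, add_zero]
    intro i hi
    have hik : i ≠ k := fun h => hk (h ▸ hi)
    have h1 : k ∉ S.erase i := fun h => hk (Finset.mem_of_mem_erase h)
    rw [if_neg h1, Finset.erase_insert_of_ne hik.symm, smul_smul, smul_smul, ← add_smul]
    have h2 : sg i S = sg i (insert k S) * (if k < i then -1 else 1) := by
      rw [← sg_erase k i (insert k S) (Finset.mem_insert_self k S), Finset.erase_insert hk]
    rw [sg_erase i k S hi, h2]
    have h0 : sg k S * sg i (insert k S) +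
        (sg i (insert k S) * if k < i then -1 else 1) * (sg k S * if i < k then -1 else 1) = 0 := by
      rcases lt_or_gt_of_ne hik with h | h
      · rw [if_neg (not_lt.2 h.le), if_pos h]
        ring
      · rw [if_pos h, if_neg (not_lt.2 h.le)]
        ring
    rw [h0, zero_smul]

end ddl

/-- Laurent polynomials -/
abbrev Lam (K ι : Type) [Field K] : Type := AddMonoidAlgebra K (ι → ℤ)

section LSl

variable {K ι : Type} [Field K] [Fintype ι]

/-- Laurent polynomials of degree `m`, weight at most `s` with denominators in `S`. -/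
def LS (K : Type) {ι : Type} [Field K] [Fintype ι] (w : ι → ℕ) (m s : ℤ) (S : Finset ι) :
    Submodule K (Lam K ι) where
  carrier := {G | ∀ b, G.coeff b ≠ 0 → degz b = m ∧ wtz w b ≤ s ∧ ∀ i, b i < 0 → i ∈ S}
  add_mem' := by
    intro G H hG hH b hb
    by_cases h : G.coeff b = 0
    · refine hH b fun h' => hb ?_
      rw [AddMonoidAlgebra.coeff_add, Finsupp.add_apply, h, h', add_zero]
    · exact hG b h
  zero_mem' := by
    intro b hb
    exact absurd rfl hb
  smul_mem' := by
    intro c G hG b hb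
    refine hG b fun h => hb ?_
    rw [AddMonoidAlgebra.coeff_smul, Finsupp.smul_apply, h, smul_zero]

private theorem mem_LS {w : ι → ℕ} {m s : ℤ} {S : Finset ι} {G : Lam K ι} :
    G ∈ LS K w m s S ↔
      ∀ b, G.coeff b ≠ 0 → degz b = m ∧ wtz w b ≤ s ∧ ∀ i, b i < 0 → i ∈ S := Iff.rfl

private theorem degz_add (a b : ι → ℤ) : degz (a + b) = degz a + degz b := by
  simp only [degz, Pi.add_apply, Finset.sum_add_distrib]

private theorem wtz_add (w : ι → ℕ) (a b : ι → ℤ) : wtz w (a + b) = wtz w a + wtz w b := by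
  simp only [wtz, Pi.add_apply, mul_add, Finset.sum_add_distrib]

private theorem LS_mono {w : ι → ℕ} {m s : ℤ} {S T : Finset ι} (h : S ⊆ T) {G : Lam K ι}
    (hG : G ∈ LS K w m s S) : G ∈ LS K w m s T := fun b hb =>
  ⟨(hG b hb).1, (hG b hb).2.1, fun i hi => h ((hG b hb).2.2 i hi)⟩

private theorem LS_mul {w : ι → ℕ} {m s m' s' : ℤ} {S : Finset ι} {G H : Lam K ι}
    (hG : G ∈ LS K w m s S) (hH : H ∈ LS K w m' s' S) : G * H ∈ LS K w (m + m') (s + s') S := by
  classical
  intro b hb
  rw [AddMonoidAlgebra.coeff_mul, Finsupp.sum] at hb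
  obtain ⟨b1, hb1, h1⟩ := Finset.exists_ne_zero_of_sum_ne_zero hb
  rw [Finsupp.sum] at h1
  obtain ⟨b2, hb2, h2⟩ := Finset.exists_ne_zero_of_sum_ne_zero h1
  have h3 : b1 + b2 = b := by
    by_contra h
    exact h2 (if_neg h)
  have hg := hG b1 (Finsupp.mem_support_iff.1 hb1)
  have hh := hH b2 (Finsupp.mem_support_iff.1 hb2)
  rw [← h3, degz_add, wtz_add]
  refine ⟨by rw [hg.1, hh.1], add_le_add hg.2.1 hh.2.1, fun i hi => ?_⟩
  rw [Pi.add_apply] at hi
  by_cases h : b1 i < 0
  · exact hg.2.2 i h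
  · exact hh.2.2 i (by omega)

private theorem single_mem_LS {w : ι → ℕ} (S : Finset ι) (b : ι → ℤ) (r : K)
    (hb : ∀ i, b i < 0 → i ∈ S) {s : ℤ} (hs : wtz w b ≤ s) :
    (AddMonoidAlgebra.single b r : Lam K ι) ∈ LS K w (degz b) s S := by
  classical
  intro b' hb'
  rw [AddMonoidAlgebra.coeff_single, Finsupp.single_apply] at hb'
  have h : b = b' := by
    by_contra h
    exact hb' (if_neg h)
  rw [← h]
  exact ⟨rfl, hs, hb⟩

/-- the exponent of the product over `S` -/
private def ex [DecidableEq ι] (N : ℕ) (S : Finset ι) : ι → ℤ := fun i => if i ∈ S then (N : ℤ) else 0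

private theorem degz_ex [DecidableEq ι] (N : ℕ) (S : Finset ι) : degz (ex N S) = N * S.card := by
  simp only [degz, ex, Finset.sum_ite_mem, Finset.univ_inter, Finset.sum_const, nsmul_eq_mul]
  ring

private theorem wtz_ex [DecidableEq ι] (w : ι → ℕ) (N : ℕ) (S : Finset ι) :
    wtz w (ex N S) = N * ∑ i ∈ S, (w i : ℤ) := by
  simp only [wtz, ex, mul_ite, mul_zero, Finset.sum_ite_mem, Finset.univ_inter, Finset.mul_sum]
  exact Finset.sum_congr rfl fun i _ => mul_comm _ _

private theorem coeff_shift (c b : ι → ℤ) (G : Lam K ι) :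
    ((AddMonoidAlgebra.single c 1 : Lam K ι) * G).coeff b = G.coeff (b - c) := by
  rw [AddMonoidAlgebra.coeff_single_mul_eq_mul_coeff (b - c), one_mul]
  intro m' _
  constructor
  · rintro rfl
    abel
  · rintro rfl
    abel

private theorem shift_up [DecidableEq ι] (w : ι → ℕ) {m s : ℤ} {S : Finset ι} {G : Lam K ι}
    (hG : G ∈ LS K w m s S) : ∃ N0 : ℕ, ∀ N ≥ N0,
      (AddMonoidAlgebra.single (ex N S) 1 : Lam K ι) * G ∈
        LS K w (m + N * S.card) (s + N * ∑ i ∈ S, (w i : ℤ)) ∅ := by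
  refine ⟨∑ b ∈ G.coeff.support, ∑ i, (b i).natAbs, fun N hN b hb => ?_⟩
  rw [coeff_shift] at hb
  have h := hG _ hb
  have e1 : b = (b - ex N S) + ex N S := by abel
  refine ⟨?_, ?_, ?_⟩
  · rw [e1, degz_add, h.1, degz_ex]
  · rw [e1, wtz_add, wtz_ex]
    exact add_le_add h.2.1 le_rfl
  · intro i hi
    exfalso
    by_cases hS : i ∈ S
    · have h1 : ((b - ex N S) i).natAbs ≤ N := by
        refine le_trans ?_ hN
        refine le_trans ?_ (Finset.single_le_sum (f := fun b : ι → ℤ => ∑ i, (b i).natAbs)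
          (fun _ _ => Nat.zero_le _) (Finsupp.mem_support_iff.2 hb))
        exact Finset.single_le_sum (f := fun i => ((b - ex N S) i).natAbs)
          (fun _ _ => Nat.zero_le _) (Finset.mem_univ i)
      rw [Pi.sub_apply, ex, if_pos hS] at h1
      omega
    · apply hS
      apply h.2.2
      rw [Pi.sub_apply, ex, if_neg hS, sub_zero]
      exact hi

private theorem shift_down [DecidableEq ι] (w : ι → ℕ) {m s : ℤ} (S : Finset ι) {G : Lam K ι}
    (N : ℕ) (hG : G ∈ LS K w (m + N * S.card) (s + N * ∑ i ∈ S, (w i : ℤ)) ∅) :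
      (AddMonoidAlgebra.single (-ex N S) 1 : Lam K ι) * G ∈ LS K w m s S := by
  intro b hb
  rw [coeff_shift] at hb
  have h := hG _ hb
  rw [sub_neg_eq_add, degz_add, wtz_add, degz_ex, wtz_ex] at h
  refine ⟨by linarith [h.1], by linarith [h.2.1], fun i hi => ?_⟩
  by_contra hS
  have h2 := h.2.2 i
  rw [Pi.add_apply, ex, if_neg hS, add_zero] at h2
  exact absurd (h2 hi) (Finset.notMem_empty i)

private theorem shift_cancel [DecidableEq ι] (N : ℕ) (S : Finset ι) :
    (AddMonoidAlgebra.single (-ex N S) 1 : Lam K ι) * AddMonoidAlgebra.single (ex N S) 1 = 1 := by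
  rw [AddMonoidAlgebra.single_mul_single, neg_add_cancel, one_mul]
  rfl

end LSl

section free

variable {K ι : Type} [Field K] [Fintype ι] [LinearOrder ι]

/-- the least index with nonnegative exponent -/
private def pp (i : ι) (b : ι → ℤ) : Prop := 0 ≤ b i ∧ ∀ k < i, b k < 0

private theorem pp_ex (b : ι → ℤ) (h : ∃ i, 0 ≤ b i) : ∃ i, pp i b := by
  classical
  have hne : (Finset.univ.filter (fun i => 0 ≤ b i)).Nonempty := by
    obtain ⟨i, hi⟩ := h
    exact ⟨i, Finset.mem_filter.2 ⟨Finset.mem_univ i, hi⟩⟩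
  refine ⟨(Finset.univ.filter (fun i => 0 ≤ b i)).min' hne,
    (Finset.mem_filter.1 (Finset.min'_mem _ hne)).2, fun k hk => ?_⟩
  by_contra hneg
  have hle := Finset.min'_le (Finset.univ.filter (fun i => 0 ≤ b i)) k
    (Finset.mem_filter.2 ⟨Finset.mem_univ k, not_lt.1 hneg⟩)
  exact absurd hle (not_le.2 hk)

private theorem pp_uniq {i k : ι} {b : ι → ℤ} (hi : pp i b) (hk : pp k b) : i = k := by
  rcases lt_trichotomy i k with h | h | h
  · exact absurd hi.1 (not_le.2 (hk.2 i h))
  · exact h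
  · exact absurd hk.1 (not_le.2 (hi.2 k h))

open Classical in
/-- the contraction -/
private noncomputable def CC (F : Finset ι → Lam K ι) (S : Finset ι) : Lam K ι :=
  ∑ i, if i ∈ S then 0 else
    sg i S • AddMonoidAlgebra.ofCoeff ((F (insert i S)).coeff.filter (pp i))

/-- the coefficient functional -/
private def ev (b : ι → ℤ) : Lam K ι →+ K where
  toFun G := G.coeff b
  map_zero' := rfl
  map_add' _ _ := rfl

private theorem CC_coeff (F : Finset ι → Lam K ι) (S : Finset ι) (b : ι → ℤ) (k : ι) (hk : pp k b) :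
    (CC F S).coeff b = if k ∈ S then 0 else sg k S • (F (insert k S)).coeff b := by
  classical
  have h1 : (CC F S).coeff b = ev b (CC F S) := rfl
  rw [h1, CC, map_sum, Finset.sum_eq_single k]
  · by_cases h : k ∈ S
    · rw [if_pos h, if_pos h, map_zero]
    · rw [if_neg h, if_neg h, map_zsmul]
      congr 1
      exact Finsupp.filter_apply_pos (pp k) _ hk
  · intro i _ hik
    by_cases h : i ∈ S
    · rw [if_pos h, map_zero]
    · rw [if_neg h, map_zsmul]
      have h2 : ev b (AddMonoidAlgebra.ofCoeff ((F (insert i S)).coeff.filter (pp i)) : Lam K ι) =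
          0 := Finsupp.filter_apply_neg (pp i) _ fun h' => hik (pp_uniq h' hk)
      rw [h2, smul_zero]
  · intro h
    exact absurd (Finset.mem_univ k) h

private theorem CC_coeff0 (F : Finset ι → Lam K ι) (S : Finset ι) (b : ι → ℤ)
    (hb : ∀ i, ¬ pp i b) : (CC F S).coeff b = 0 := by
  classical
  have h1 : (CC F S).coeff b = ev b (CC F S) := rfl
  rw [h1, CC, map_sum]
  refine Finset.sum_eq_zero fun i _ => ?_
  by_cases h : i ∈ S
  · rw [if_pos h, map_zero]
  · rw [if_neg h, map_zsmul]
    have h2 : ev b (AddMonoidAlgebra.ofCoeff ((F (insert i S)).coeff.filter (pp i)) : Lam K ι) =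
        0 := Finsupp.filter_apply_neg (pp i) _ (hb i)
    rw [h2, smul_zero]

private theorem allneg (w : ι → ℕ) (m s : ℤ) (hs : s < m * ∑ i, (w i : ℤ)) (b : ι → ℤ)
    (h1 : degz b = m) (h2 : wtz w b ≤ s) : ∃ i, 0 ≤ b i := by
  by_contra hcon
  push Not at hcon
  have h3 : ∀ i, m ≤ b i := by
    intro i
    rw [← h1, degz, ← Finset.add_sum_erase _ _ (Finset.mem_univ i)]
    have : ∑ k ∈ Finset.univ.erase i, b k ≤ 0 := Finset.sum_nonpos fun k _ => (hcon k).le
    linarith
  have h4 : m * ∑ i, (w i : ℤ) ≤ wtz w b := by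
    rw [wtz, Finset.mul_sum]
    refine Finset.sum_le_sum fun i _ => ?_
    rw [mul_comm]
    exact mul_le_mul_of_nonneg_left (h3 i) (by positivity)
  linarith

private theorem free1 (w : ι → ℕ) (m s : ℤ) (hs : s < m * ∑ i, (w i : ℤ)) (j : ℕ)
    (F : Finset ι → Lam K ι) (hF : ∀ S : Finset ι, S.card = j → F S ∈ LS K w m s S)
    (hd : ∀ T : Finset ι, T.card = j + 1 → dd F T = 0) :
    (∀ S : Finset ι, S.card + 1 = j → CC F S ∈ LS K w m s S) ∧
      ∀ S : Finset ι, S.card = j → F S = dd (CC F) S := by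
  classical
  constructor
  · intro S hS b hb
    by_cases hp : ∃ k, pp k b
    · obtain ⟨k, hk⟩ := hp
      rw [CC_coeff F S b k hk] at hb
      by_cases hkS : k ∈ S
      · rw [if_pos hkS] at hb
        exact absurd rfl hb
      · rw [if_neg hkS] at hb
        have h1 : (F (insert k S)).coeff b ≠ 0 := fun h => hb (by rw [h, smul_zero])
        have h2 := hF (insert k S) (by rw [Finset.card_insert_of_notMem hkS, hS]) b h1
        refine ⟨h2.1, h2.2.1, fun i hi => ?_⟩
        rcases Finset.mem_insert.1 (h2.2.2 i hi) with h | h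
        · rw [h] at hi
          exact absurd hk.1 (not_le.2 hi)
        · exact h
    · exact absurd (CC_coeff0 F S b (not_exists.1 hp)) hb
  · intro S hS
    apply AddMonoidAlgebra.ext
    ext b
    have h1 : (dd (CC F) S).coeff b = dd (fun T => (CC F T).coeff b) S :=
      (dd_map (ev b) (CC F) S).symm
    rw [h1]
    by_cases hp : ∃ k, pp k b
    · obtain ⟨k, hk⟩ := hp
      have h2 := dd_homotopy k (fun T => (F T).coeff b) S
      have h3 : (if k ∈ S then 0 else sg k S • dd (fun T => (F T).coeff b) (insert k S)) = 0 := by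
        by_cases hkS : k ∈ S
        · rw [if_pos hkS]
        · rw [if_neg hkS]
          have h4 : dd (fun T => (F T).coeff b) (insert k S) = (dd F (insert k S)).coeff b :=
            dd_map (ev b) F (insert k S)
          rw [h4, hd _ (by rw [Finset.card_insert_of_notMem hkS, hS])]
          exact smul_zero _
      rw [h3, add_zero] at h2
      rw [← h2]
      exact dd_congr _ _ _ fun i _ => (CC_coeff F _ b k hk).symm
    · have h5 : (F S).coeff b = 0 := by
        by_contra hne
        have h6 := hF S hS b hne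
        exact hp (pp_ex b (allneg w m s hs b h6.1 h6.2.1))
      rw [h5]
      symm
      rw [dd_def]
      exact Finset.sum_eq_zero fun i _ => by
        rw [CC_coeff0 F _ b (not_exists.1 hp), smul_zero]

end free

section noeth

variable {K ι : Type} [Field K] [Fintype ι]

/-- Laurent polynomials with a bidegree -/
private abbrev Om (K ι : Type) [Field K] : Type := AddMonoidAlgebra (Lam K ι) (ℤ × ℤ)

open Classical in
/-- the generator of the Rees algebra -/
private noncomputable def gY (K : Type) {ι : Type} [Field K] (w : ι → ℕ) (i : ι) : Om K ι :=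
  AddMonoidAlgebra.single ((1 : ℤ), (w i : ℤ)) (AddMonoidAlgebra.single (Pi.single i 1) 1)

private noncomputable def gt (K ι : Type) [Field K] : Om K ι :=
  AddMonoidAlgebra.single ((0 : ℤ), (1 : ℤ)) 1

open Classical in
/-- the Rees algebra -/
private noncomputable def R0 (K : Type) {ι : Type} [Field K] [Fintype ι] (w : ι → ℕ) :
    Subalgebra K (Om K ι) :=
  Algebra.adjoin K ((insert (gt K ι) (Finset.univ.image (gY K w)) : Finset (Om K ι)) :
    Set (Om K ι))

private theorem R0_noeth (w : ι → ℕ) : IsNoetherianRing (R0 K w) :=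
  isNoetherianRing_of_fg (Subalgebra.fg_adjoin_finset _)

private theorem gt_mem (w : ι → ℕ) : gt K ι ∈ R0 K w :=
  Algebra.subset_adjoin (by simp)

private theorem gY_mem (w : ι → ℕ) (i : ι) : gY K w i ∈ R0 K w :=
  Algebra.subset_adjoin (by simp)

private theorem coeff_mem (w : ι → ℕ) (r : Om K ι) (hr : r ∈ R0 K w) (p : ℤ × ℤ) :
    r.coeff p ∈ LS K w p.1 p.2 ∅ := by
  classical
  revert p
  induction hr using Algebra.adjoin_induction with
  | mem x hx =>
    intro p
    simp only [Finset.coe_insert, Finset.coe_image, Finset.coe_univ, Set.image_univ,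
      Set.mem_insert_iff, Set.mem_range] at hx
    rcases hx with rfl | ⟨i, rfl⟩
    · rw [gt, AddMonoidAlgebra.coeff_single, Finsupp.single_apply]
      split_ifs with h
      · rw [← h]
        have := single_mem_LS (K := K) (w := w) (s := 1) ∅ 0 1 (by simp) (by simp [wtz])
        simpa [degz, AddMonoidAlgebra.one_def] using this
      · exact Submodule.zero_mem _
    · rw [gY, AddMonoidAlgebra.coeff_single, Finsupp.single_apply]
      split_ifs with h
      · rw [← h]
        have := single_mem_LS (K := K) (w := w) (s := w i) ∅ (Pi.single i 1) 1 (fun k hk => by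
          exfalso
          rw [Pi.single_apply] at hk
          split_ifs at hk <;> omega) (by simp [wtz, Pi.single_apply])
        simpa [degz, Pi.single_apply] using this
      · exact Submodule.zero_mem _
  | algebraMap r =>
    intro p
    have h0 : (algebraMap K (Om K ι) r) =
        AddMonoidAlgebra.single ((0 : ℤ), (0 : ℤ)) (AddMonoidAlgebra.single 0 r) := rfl
    rw [h0, AddMonoidAlgebra.coeff_single, Finsupp.single_apply]
    split_ifs with h
    · rw [← h]
      have := single_mem_LS (K := K) (w := w) (s := 0) ∅ 0 r (by simp) (by simp [wtz])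
      simpa [degz] using this
    · exact Submodule.zero_mem _
  | add x y _ _ hx hy =>
    intro p
    exact Submodule.add_mem _ (hx p) (hy p)
  | mul x y _ _ hx hy =>
    intro p
    rw [AddMonoidAlgebra.coeff_mul]
    refine Submodule.sum_mem _ fun a _ => Submodule.sum_mem _ fun b _ => ?_
    simp only
    split_ifs with h
    · rw [← h]
      exact LS_mul (hx a) (hy b)
    · exact Submodule.zero_mem _

private theorem single_mem_R0 (w : ι → ℕ) (b : ι → ℤ) (r : K) (hb : ∀ i, 0 ≤ b i) (e s : ℤ)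
    (he : degz b = e) (hs : wtz w b ≤ s) :
    (AddMonoidAlgebra.single (e, s) (AddMonoidAlgebra.single b r) : Om K ι) ∈ R0 K w := by
  classical
  have h1 : (AddMonoidAlgebra.single (e, s) (AddMonoidAlgebra.single b r) : Om K ι) =
      r • ((∏ i, gY K w i ^ (b i).toNat) * gt K ι ^ (s - wtz w b).toNat) := by
    have h2 : ∀ i, gY K w i ^ (b i).toNat = AddMonoidAlgebra.single (b i, (w i : ℤ) * b i)
        (AddMonoidAlgebra.single (Pi.single i (b i)) 1) := by
      intro i
      have hbi : (((b i).toNat : ℕ) : ℤ) = b i := Int.toNat_of_nonneg (hb i)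
      rw [gY, AddMonoidAlgebra.single_pow, AddMonoidAlgebra.single_pow, one_pow]
      congr 1
      · rw [Prod.smul_mk, nsmul_eq_mul, nsmul_eq_mul, hbi, mul_one, mul_comm]
      · congr 1
        rw [← Pi.single_smul, nsmul_eq_mul, hbi, mul_one]
    have h3 : ∀ T : Finset ι, ∏ i ∈ T, gY K w i ^ (b i).toNat =
        AddMonoidAlgebra.single (∑ i ∈ T, b i, ∑ i ∈ T, (w i : ℤ) * b i)
          (AddMonoidAlgebra.single (∑ i ∈ T, Pi.single i (b i)) 1) := by
      intro T
      induction T using Finset.induction_on with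
      | empty => rfl
      | insert i T hi ih =>
        rw [Finset.prod_insert hi, ih, h2, AddMonoidAlgebra.single_mul_single,
          AddMonoidAlgebra.single_mul_single, Finset.sum_insert hi, Finset.sum_insert hi,
          Finset.sum_insert hi, one_mul]
        rfl
    have h4 : gt K ι ^ (s - wtz w b).toNat =
        AddMonoidAlgebra.single ((0 : ℤ), s - wtz w b) 1 := by
      rw [gt, AddMonoidAlgebra.single_pow, one_pow, Prod.smul_mk, smul_zero, nsmul_eq_mul,
        Int.toNat_of_nonneg (by linarith), mul_one]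
    rw [h3, h4, AddMonoidAlgebra.single_mul_single, mul_one, Finset.univ_sum_single,
      AddMonoidAlgebra.smul_single, AddMonoidAlgebra.smul_single, smul_eq_mul, mul_one]
    congr 1
    rw [Prod.mk_add_mk, add_zero]
    congr 1
    · exact he.symm
    · rw [wtz]
      ring
  rw [h1]
  exact Subalgebra.smul_mem _ (Subalgebra.mul_mem _ (Subalgebra.prod_mem _ fun i _ =>
    Subalgebra.pow_mem _ (gY_mem w i) _) (Subalgebra.pow_mem _ (gt_mem w) _)) r

private theorem mem_R0 (w : ι → ℕ) (e s : ℤ) (G : Lam K ι) (hG : G ∈ LS K w e s ∅) :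
    (AddMonoidAlgebra.single (e, s) G : Om K ι) ∈ R0 K w := by
  classical
  have h1 : (AddMonoidAlgebra.single (e, s) G : Om K ι) = ∑ b ∈ G.coeff.support,
      AddMonoidAlgebra.single (e, s) (AddMonoidAlgebra.single b (G.coeff b)) := by
    have h2 : G = ∑ b ∈ G.coeff.support, AddMonoidAlgebra.single b (G.coeff b) :=
      (AddMonoidAlgebra.sum_coeff_single G).symm
    conv_lhs => rw [h2]
    exact map_sum (AddMonoidAlgebra.singleAddHom (e, s)) _ _
  rw [h1]
  refine Subalgebra.sum_mem _ fun b hb => ?_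
  have h2 := hG b (Finsupp.mem_support_iff.1 hb)
  exact single_mem_R0 w b _ (fun i => by
    by_contra h
    exact absurd (h2.2.2 i (not_le.1 h)) (Finset.notMem_empty i)) e s h2.1 h2.2.1

/-- relations between the `u l`, of degree `m` and weight `s`, with denominators in `S` -/
private def Rel (K : Type) {ι : Type} [Field K] [Fintype ι] {E κ : Type} [AddCommGroup E]
    [Module (Lam K ι) E] [Fintype κ] (w : ι → ℕ) (u : κ → E) (e σ : κ → ℤ) (m s : ℤ) (S : Finset ι) (G : κ → Lam K ι) : Prop :=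
  (∀ l, G l ∈ LS K w (m - e l) (s - σ l) S) ∧ ∑ l, G l • u l = 0

private theorem smul_coe (w : ι → ℕ) (r : R0 K w) (z : Om K ι) : r • z = (r : Om K ι) * z := rfl

/-- the homogenization of the vector `G` -/
private noncomputable def hg {κ : Type} (m s : ℤ) (G : κ → Lam K ι) : κ → Om K ι :=
  fun l => AddMonoidAlgebra.single (m, s) (G l)

open Classical in
/-- the basis vectors -/
private noncomputable def bas (K ι : Type) [Field K] {κ : Type} (e σ : κ → ℤ) (l : κ) : κ → Om K ι :=
  Pi.single l (AddMonoidAlgebra.single (e l, σ l) 1)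

private theorem hg_mem {κ : Type} [Fintype κ] (w : ι → ℕ) (e σ : κ → ℤ) (m s : ℤ)
    (G : κ → Lam K ι) (hG : ∀ l, G l ∈ LS K w (m - e l) (s - σ l) ∅) :
    hg m s G ∈ Submodule.span (R0 K w) (Set.range (bas K ι e σ)) := by
  classical
  have h1 : hg m s G =
      ∑ l, (⟨AddMonoidAlgebra.single (m - e l, s - σ l) (G l), mem_R0 w _ _ _ (hG l)⟩ :
        R0 K w) • bas K ι e σ l := by
    funext l
    rw [Finset.sum_apply, Finset.sum_eq_single l]
    · rw [Pi.smul_apply, smul_coe, bas, Pi.single_eq_same, AddMonoidAlgebra.single_mul_single,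
        mul_one, Prod.mk_add_mk, sub_add_cancel, sub_add_cancel, hg]
    · intro k _ hk
      rw [Pi.smul_apply, smul_coe, bas, Pi.single_eq_of_ne hk.symm, mul_zero]
    · intro h
      exact absurd (Finset.mem_univ l) h
  rw [h1]
  exact Submodule.sum_mem _ fun l _ => Submodule.smul_mem _ _ (Submodule.subset_span ⟨l, rfl⟩)

private theorem hg_coeff {κ κ' : Type} [Fintype κ'] (w : ι → ℕ) (m s : ℤ)
    (G : κ → Lam K ι) (e' σ' : κ' → ℤ) (v : κ' → κ → Lam K ι) (r : κ' → R0 K w)
    (h : ∑ k, r k • hg (e' k) (σ' k) (v k) = hg m s G) :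
    G = ∑ k, (r k : Om K ι).coeff (m - e' k, s - σ' k) • v k := by
  funext l
  have h3 := congrFun h l
  rw [Finset.sum_apply] at h3
  have h5 := congrArg (fun z : Om K ι => z.coeff (m, s)) h3
  simp only [Pi.smul_apply, smul_coe, hg, AddMonoidAlgebra.coeff_single, Finsupp.single_eq_same,
    AddMonoidAlgebra.coeff_sum, Finsupp.finsetSum_apply] at h5
  rw [← h5, Finset.sum_apply]
  refine Finset.sum_congr rfl fun k _ => ?_
  rw [AddMonoidAlgebra.coeff_mul_single_eq_coeff_mul (m - e' k, s - σ' k)]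
  · rfl
  · intro p _
    constructor
    · intro h
      have h1 := congrArg Prod.fst h
      have h2 := congrArg Prod.snd h
      rw [Prod.fst_add] at h1
      rw [Prod.snd_add] at h2
      exact Prod.ext (eq_sub_of_add_eq h1) (eq_sub_of_add_eq h2)
    · rintro rfl
      rw [Prod.mk_add_mk, sub_add_cancel, sub_add_cancel]

private theorem gen_fin {R M : Type} [Ring R] [AddCommGroup M] [Module R M]
    (hR : IsNoetherianRing R) (B : Set M) (hB : B.Finite) (H : Set M)
    (hH : ∀ h ∈ H, h ∈ Submodule.span R B) :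
    ∃ H0 : Finset M, (∀ h ∈ H0, h ∈ H) ∧ ∀ h ∈ H, h ∈ Submodule.span R (H0 : Set M) := by
  have hM : IsNoetherian R (Submodule.span R B) := isNoetherian_span_of_finite _ hB
  have hfg := isNoetherian_submodule.1 hM _ (Submodule.span_le.2 hH)
  obtain ⟨H0, hH0, hsp⟩ := (Submodule.fg_span_iff_fg_span_finset_subset _).1 hfg
  refine ⟨H0, fun h hh => hH0 hh, fun h hh => ?_⟩
  rw [← hsp]
  exact Submodule.subset_span hh

private theorem fin_gen {κ : Type} [Fintype κ] (w : ι → ℕ) (e σ : κ → ℤ)
    (P : ℤ → ℤ → (κ → Lam K ι) → Prop)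
    (hP : ∀ m s G, P m s G → ∀ l, G l ∈ LS K w (m - e l) (s - σ l) ∅) :
    ∃ H0 : Finset (κ → Om K ι), (∀ h ∈ H0, ∃ m s G, P m s G ∧ h = hg m s G) ∧
      ∀ m s G, P m s G → hg m s G ∈ Submodule.span (R0 K w) (H0 : Set (κ → Om K ι)) := by
  obtain ⟨H0, h1, h2⟩ := gen_fin (R := R0 K w) (M := κ → Om K ι) (R0_noeth (K := K) w)
    (Set.range (bas K ι e σ))
    (Set.finite_range _) {h | ∃ m s G, P m s G ∧ h = hg m s G} (by
      rintro h ⟨m, s, G, hG, rfl⟩
      exact hg_mem w e σ m s G (hP m s G hG))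
  exact ⟨H0, fun h hh => h1 h hh, fun m s G hG => h2 _ ⟨m, s, G, hG, rfl⟩⟩

private theorem span_fin {κ κ' : Type} [Fintype κ'] (w : ι → ℕ) (f : κ' → κ → Om K ι)
    (x : κ → Om K ι) (hx : x ∈ Submodule.span (R0 K w) (Set.range f)) :
    ∃ r : κ' → R0 K w, ∑ k, r k • f k = x :=
  (Submodule.mem_span_range_iff_exists_fun _).1 hx

private theorem noeth0 {E κ : Type} [AddCommGroup E] [Module (Lam K ι) E] [Fintype κ] (w : ι → ℕ)
    (u : κ → E) (e σ : κ → ℤ) :
    ∃ (κ' : Type) (_ : Fintype κ') (v : κ' → κ → Lam K ι) (e' σ' : κ' → ℤ),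
      (∀ k, Rel K w u e σ (e' k) (σ' k) ∅ (v k)) ∧
      ∀ (m s : ℤ) (G : κ → Lam K ι), Rel K w u e σ m s ∅ G →
        ∃ H : κ' → Lam K ι, (∀ k, H k ∈ LS K w (m - e' k) (s - σ' k) ∅) ∧
          G = ∑ k, H k • v k := by
  obtain ⟨H0, hH0, hsp⟩ := fin_gen w e σ (fun m s G => Rel K w u e σ m s ∅ G)
    (fun m s G hG => hG.1)
  choose m0 s0 G0 hR0 hE0 using fun k : {h // h ∈ H0} => hH0 k.1 k.2
  refine ⟨{h // h ∈ H0}, inferInstance, G0, m0, s0, hR0, fun m s G hG => ?_⟩
  have h1 := hsp m s G hG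
  have h2 : (H0 : Set (κ → Om K ι)) =
      Set.range (fun k : {h // h ∈ H0} => hg (m0 k) (s0 k) (G0 k)) := by
    ext z
    constructor
    · intro hz
      exact ⟨⟨z, hz⟩, (hE0 ⟨z, hz⟩).symm⟩
    · rintro ⟨k, rfl⟩
      have h3 : (fun k : {h // h ∈ H0} => hg (m0 k) (s0 k) (G0 k)) k = k.1 := (hE0 k).symm
      rw [h3]
      exact k.2
  rw [h2] at h1
  obtain ⟨r, hr⟩ := span_fin w _ _ h1
  exact ⟨fun k => (r k : Om K ι).coeff (m - m0 k, s - s0 k),
    fun k => coeff_mem w _ (r k).2 _, hg_coeff w m s G m0 s0 G0 r hr⟩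

private theorem noeth1 [DecidableEq ι] {E κ : Type} [AddCommGroup E] [Module (Lam K ι) E]
    [Fintype κ] (w : ι → ℕ) (u : κ → E) (e σ : κ → ℤ) :
    ∃ (κ' : Type) (_ : Fintype κ') (v : κ' → κ → Lam K ι) (e' σ' : κ' → ℤ),
      (∀ k, Rel K w u e σ (e' k) (σ' k) ∅ (v k)) ∧
      ∀ (m s : ℤ) (S : Finset ι) (G : κ → Lam K ι), Rel K w u e σ m s S G →
        ∃ H : κ' → Lam K ι, (∀ k, H k ∈ LS K w (m - e' k) (s - σ' k) S) ∧
          G = ∑ k, H k • v k := by
  obtain ⟨κ', hκ', v, e', σ', hv, hG0⟩ := noeth0 (K := K) w u e σ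
  refine ⟨κ', hκ', v, e', σ', hv, fun m s S G hG => ?_⟩
  choose N0 hN0 using fun l => shift_up w (hG.1 l)
  let N := ∑ l, N0 l
  have hN : ∀ l, N0 l ≤ N := fun l => Finset.single_le_sum (fun _ _ => Nat.zero_le _)
    (Finset.mem_univ l)
  have h1 : Rel K w u e σ (m + N * S.card) (s + N * ∑ i ∈ S, (w i : ℤ)) ∅
      (fun l => AddMonoidAlgebra.single (ex N S) 1 * G l) := by
    constructor
    · intro l
      have h2 := hN0 l N (hN l)
      have e1 : m - e l + N * S.card = m + N * S.card - e l := by ring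
      have e2 : s - σ l + N * ∑ i ∈ S, (w i : ℤ) = s + N * ∑ i ∈ S, (w i : ℤ) - σ l := by ring
      rw [e1, e2] at h2
      exact h2
    · simp only [mul_smul]
      rw [← Finset.smul_sum, hG.2, smul_zero]
  obtain ⟨H, hH, hHG⟩ := hG0 _ _ _ h1
  refine ⟨fun k => AddMonoidAlgebra.single (-ex N S) 1 * H k, fun k => ?_, ?_⟩
  · apply shift_down w S N
    have h2 := hH k
    have e1 : m - e' k + N * S.card = m + N * S.card - e' k := by ring
    have e2 : s - σ' k + N * ∑ i ∈ S, (w i : ℤ) = s + N * ∑ i ∈ S, (w i : ℤ) - σ' k := by ring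
    rw [e1, e2]
    exact h2
  · simp only [mul_smul]
    rw [← Finset.smul_sum, ← hHG]
    funext l
    rw [Pi.smul_apply, smul_eq_mul, ← mul_assoc, shift_cancel, one_mul]

end noeth

section main

variable {K ι : Type} [Field K] [Fintype ι] [LinearOrder ι]

/-- sections of the module generated by the `u l` -/
private def GS (K : Type) {ι : Type} [Field K] [Fintype ι] {E κ : Type} [AddCommGroup E]
    [Module (Lam K ι) E] [Fintype κ] (w : ι → ℕ) (u : κ → E) (e σ : κ → ℤ) (m s : ℤ) (S : Finset ι) (a : E) : Prop :=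
  ∃ G : κ → Lam K ι, (∀ l, G l ∈ LS K w (m - e l) (s - σ l) S) ∧ a = ∑ l, G l • u l

/-- the statement of the induction -/
private def PP (K ι : Type) [Field K] [Fintype ι] [LinearOrder ι] (w : ι → ℕ) (j : ℕ) : Prop :=
  ∀ (E κ : Type) [AddCommGroup E] [Module (Lam K ι) E] [Fintype κ] (u : κ → E) (e σ : κ → ℤ)
    (m : ℤ), ∃ s0 : ℤ, ∀ s < s0, ∀ c : Finset ι → E,
      (∀ S : Finset ι, S.card = j → GS K w u e σ m s S (c S)) →
      (∀ T : Finset ι, T.card = j + 1 → dd c T = 0) →
      ∃ b : Finset ι → E, (∀ S : Finset ι, S.card + 1 = j → GS K w u e σ m s S (b S)) ∧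
        ∀ S : Finset ι, S.card = j → c S = dd b S

private theorem PP_step (w : ι → ℕ) (j : ℕ) (hP : PP K ι w (j + 1)) : PP K ι w j := by
  classical
  intro E κ _ _ _ u e σ m
  obtain ⟨κ', hκ', v, e', σ', hv, hgen⟩ := noeth1 (K := K) w u e σ
  obtain ⟨s1, hs1⟩ := hP (κ → Lam K ι) κ' v e' σ' m
  have hs2 : ∃ s2 : ℤ, ∀ s < s2, ∀ l, s - σ l < (m - e l) * ∑ i, (w i : ℤ) := by
    refine ⟨-∑ l, |(m - e l) * ∑ i, (w i : ℤ) + σ l|, fun s hs l => ?_⟩
    have h1 : |(m - e l) * ∑ i, (w i : ℤ) + σ l| ≤ ∑ l, |(m - e l) * ∑ i, (w i : ℤ) + σ l| :=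
      Finset.single_le_sum (f := fun l => |(m - e l) * ∑ i, (w i : ℤ) + σ l|)
        (fun _ _ => abs_nonneg _) (Finset.mem_univ l)
    have h2 := neg_abs_le ((m - e l) * ∑ i, (w i : ℤ) + σ l)
    linarith
  obtain ⟨s2, hs2⟩ := hs2
  refine ⟨min s1 s2, fun s hs c hc hdc => ?_⟩
  have hlt1 : s < s1 := lt_of_lt_of_le hs (min_le_left _ _)
  have hlt2 : s < s2 := lt_of_lt_of_le hs (min_le_right _ _)
  -- lift the cocycle
  have hF : ∀ S : Finset ι, ∃ F : κ → Lam K ι, S.card = j →
      (∀ l, F l ∈ LS K w (m - e l) (s - σ l) S) ∧ c S = ∑ l, F l • u l := by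
    intro S
    by_cases hS : S.card = j
    · obtain ⟨F, hF1, hF2⟩ := hc S hS
      exact ⟨F, fun _ => ⟨hF1, hF2⟩⟩
    · exact ⟨0, fun h => absurd h hS⟩
  choose F hF using hF
  -- the evaluation map
  let φ : (κ → Lam K ι) →+ E :=
    { toFun := fun G => ∑ l, G l • u l
      map_zero' := by simp
      map_add' := fun G H => by simp [add_smul, Finset.sum_add_distrib] }
  have hφ : ∀ G, φ G = ∑ l, G l • u l := fun _ => rfl
  have hddl : ∀ (C : Finset ι → κ → Lam K ι) (T : Finset ι) (l : κ),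
      dd C T l = dd (fun S => C S l) T := by
    intro C T l
    exact (dd_map (Pi.evalAddMonoidHom (fun _ : κ => Lam K ι) l) C T).symm
  have hdF : ∀ T : Finset ι, T.card = j + 1 → Rel K w u e σ m s T (dd F T) := by
    intro T hT
    constructor
    · intro l
      rw [hddl, dd_def]
      refine Submodule.sum_mem _ fun i hi => ?_
      have h1 : (T.erase i).card = j := by
        rw [Finset.card_erase_of_mem hi, hT]
        rfl
      have h2 := LS_mono (Finset.erase_subset i T) ((hF _ h1).1 l)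
      exact zsmul_mem h2 _
    · rw [← hφ, ← dd_map φ F T, ← hdc T hT]
      refine dd_congr _ _ _ fun i hi => ?_
      have h1 : (T.erase i).card = j := by
        rw [Finset.card_erase_of_mem hi, hT]
        rfl
      rw [hφ]
      exact (hF _ h1).2.symm
  obtain ⟨B, hB1, hB2⟩ := hs1 s hlt1 (dd F)
    (fun T hT => hgen m s T (dd F T) (hdF T hT)) (fun T _ => dd_dd F T)
  -- `B` has values in the relations
  have hB3 : ∀ S : Finset ι, S.card = j → Rel K w u e σ m s S (B S) := by
    intro S hS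
    obtain ⟨H, hH1, hH2⟩ := hB1 S (by rw [hS])
    constructor
    · intro l
      rw [hH2, Finset.sum_apply]
      refine Submodule.sum_mem _ fun k _ => ?_
      have h1 := LS_mul (hH1 k) (LS_mono (Finset.empty_subset S) ((hv k).1 l))
      rw [Pi.smul_apply, smul_eq_mul]
      have e1 : m - e' k + (e' k - e l) = m - e l := by ring
      have e2 : s - σ' k + (σ' k - σ l) = s - σ l := by ring
      rw [e1, e2] at h1
      exact h1
    · rw [hH2]
      simp only [Finset.sum_apply, Pi.smul_apply, smul_eq_mul, Finset.sum_smul, mul_smul]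
      rw [Finset.sum_comm]
      refine Finset.sum_eq_zero fun k _ => ?_
      rw [← Finset.smul_sum, (hv k).2, smul_zero]
  -- the cocycle of the free module
  let D : Finset ι → κ → Lam K ι := fun S => F S - B S
  have hfree := fun l => free1 w (m - e l) (s - σ l) (hs2 s hlt2 l) j (fun S => D S l)
    (fun S hS => Submodule.sub_mem _ ((hF S hS).1 l) ((hB3 S hS).1 l))
    (fun T hT => by
      rw [← hddl]
      have h1 : dd D T = dd F T - dd B T := dd_sub F B T
      rw [h1, hB2 T hT, sub_self]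
      rfl)
  let C : Finset ι → κ → Lam K ι := fun S l => CC (fun S => D S l) S
  refine ⟨fun S => φ (C S), fun S hS => ⟨C S, fun l => (hfree l).1 S hS, rfl⟩, fun S hS => ?_⟩
  rw [dd_map φ C S]
  have h1 : dd C S = D S := by
    funext l
    rw [hddl]
    exact ((hfree l).2 S hS).symm
  rw [h1]
  have h2 : D S = F S - B S := rfl
  rw [h2, map_sub, hφ (B S), (hB3 S hS).2, sub_zero, hφ]
  exact (hF S hS).2

private theorem PP_all (w : ι → ℕ) (n : ℕ) : ∀ j : ℕ, Fintype.card ι + 1 ≤ j + n → PP K ι w j := by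
  induction n with
  | zero =>
    intro j hj E κ _ _ _ u e σ m
    refine ⟨0, fun s _ c _ _ => ⟨0, fun S hS => ?_, fun S hS => ?_⟩⟩
    · exact ⟨0, fun l => Submodule.zero_mem _, by simp⟩
    · exfalso
      have := Finset.card_le_univ S
      omega
  | succ n ih =>
    intro j hj
    exact PP_step w j (ih (j + 1) (by omega))

section fieldl

variable {L : Type} [Field L] [Algebra K L]

/-- Laurent monomials as a character -/
private def chr (x : ι → L) (hx : ∀ i, x i ≠ 0) : Multiplicative (ι → ℤ) →* L where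
  toFun b := monz x (Multiplicative.toAdd b)
  map_one' := by simp [monz]
  map_mul' a b := by
    simp only [monz, toAdd_mul, Pi.add_apply]
    rw [← Finset.prod_mul_distrib]
    exact Finset.prod_congr rfl fun i _ => zpow_add₀ (hx i) _ _

/-- evaluation of Laurent polynomials -/
private noncomputable def phi (K : Type) [Field K] [Algebra K L] (x : ι → L) (hx : ∀ i, x i ≠ 0) :
    Lam K ι →ₐ[K] L :=
  AddMonoidAlgebra.lift K L (ι → ℤ) (chr x hx)

private theorem phi_single (x : ι → L) (hx : ∀ i, x i ≠ 0) (b : ι → ℤ) (r : K) :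
    phi K x hx (AddMonoidAlgebra.single b r) = r • monz x b := by
  rw [phi, AddMonoidAlgebra.lift_single]
  rfl

private theorem phi_ex (x : ι → L) (hx : ∀ i, x i ≠ 0) (N : ℕ) (S : Finset ι) :
    phi K x hx (AddMonoidAlgebra.single (ex N S) 1) = (∏ i ∈ S, x i) ^ N := by
  rw [phi_single, one_smul, monz, ← Finset.prod_pow]
  have h1 : ∀ i, x i ^ ex N S i = if i ∈ S then x i ^ N else 1 := by
    intro i
    unfold ex
    split_ifs
    · exact zpow_natCast _ _
    · exact zpow_zero _
  rw [Finset.prod_congr rfl fun i _ => h1 i, Finset.prod_ite_mem, Finset.univ_inter]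

private theorem WV_sub (x : ι → L) (hx : ∀ i, x i ≠ 0) (w : ι → ℕ) (e : ℕ) (s : ℤ) (a : L)
    (ha : a ∈ WV K x w e s) : ∃ G ∈ LS K w (e : ℤ) s ∅, phi K x hx G = a := by
  have h1 : WV K x w e s ≤ (LS K w (e : ℤ) s ∅).map (phi K x hx).toLinearMap := by
    rw [WV, Submodule.span_le]
    rintro z ⟨b, hb1, hb2, rfl⟩
    refine ⟨AddMonoidAlgebra.single (fun i => (b i : ℤ)) 1, ?_, ?_⟩
    · have h2 := single_mem_LS (K := K) (w := w) (s := s) ∅ (fun i => (b i : ℤ)) 1 (fun i hi => by
        exact absurd hi (not_lt.2 (Int.natCast_nonneg (b i)))) (by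
          refine le_trans (le_of_eq ?_) hb2
          simp [wtz, wt])
      have h3 : degz (fun i => (b i : ℤ)) = e := by
        rw [← hb1]
        simp [degz, deg]
      rw [h3] at h2
      exact h2
    · show phi K x hx _ = _
      rw [phi_single, one_smul]
      simp only [monz, mon, zpow_natCast]
  obtain ⟨G, hG, hGa⟩ := h1 ha
  exact ⟨G, hG, hGa⟩

private theorem sub_WV (x : ι → L) (hx : ∀ i, x i ≠ 0) (w : ι → ℕ) (e : ℕ) (s : ℤ) (G : Lam K ι)
    (hG : G ∈ LS K w (e : ℤ) s ∅) : phi K x hx G ∈ WV K x w e s := by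
  classical
  rw [← AddMonoidAlgebra.sum_coeff_single G, Finsupp.sum, map_sum]
  refine Submodule.sum_mem _ fun b hb => ?_
  rw [phi_single]
  refine Submodule.smul_mem _ _ (Submodule.subset_span ⟨fun i => (b i).toNat, ?_, ?_, ?_⟩)
  all_goals
    have h2 := hG b (Finsupp.mem_support_iff.1 hb)
    have h3 : ∀ i, (((b i).toNat : ℕ) : ℤ) = b i := fun i => Int.toNat_of_nonneg (by
      by_contra h
      exact absurd (h2.2.2 i (not_le.1 h)) (Finset.notMem_empty i))
  · have h4 : ((deg (fun i => (b i).toNat) : ℕ) : ℤ) = e := by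
      rw [← h2.1, deg, degz, Nat.cast_sum]
      exact Finset.sum_congr rfl fun i _ => h3 i
    exact_mod_cast h4
  · refine le_trans (le_of_eq ?_) h2.2.1
    rw [wt, wtz, Nat.cast_sum]
    refine Finset.sum_congr rfl fun i _ => ?_
    rw [Nat.cast_mul, h3]
  · rw [monz, mon]
    refine Finset.prod_congr rfl fun i _ => ?_
    rw [← zpow_natCast, h3]

private theorem WSec_sub (x : ι → L) (hx : ∀ i, x i ≠ 0) (w : ι → ℕ) (m s : ℤ) (S : Finset ι)
    (a : L) (ha : a ∈ WSec K x w m s S) : ∃ G ∈ LS K w m s S, phi K x hx G = a := by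
  obtain ⟨N, e, he, h⟩ := ha
  obtain ⟨G, hG, hGa⟩ := WV_sub x hx w e _ _ h
  rw [he] at hG
  refine ⟨AddMonoidAlgebra.single (-ex N S) 1 * G, shift_down w S N hG, ?_⟩
  have hne : (∏ i ∈ S, x i) ^ N ≠ 0 := pow_ne_zero _ (Finset.prod_ne_zero_iff.2 fun i _ => hx i)
  apply mul_left_cancel₀ hne
  rw [← hGa, ← phi_ex (K := K) x hx, ← map_mul, ← mul_assoc, mul_comm (AddMonoidAlgebra.single _ _)
    (AddMonoidAlgebra.single _ _), shift_cancel, one_mul]

private theorem sub_WSec (x : ι → L) (hx : ∀ i, x i ≠ 0) (w : ι → ℕ) (m s : ℤ) (S : Finset ι)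
    (hS : 1 ≤ S.card) (G : Lam K ι) (hG : G ∈ LS K w m s S) :
    phi K x hx G ∈ WSec K x w m s S := by
  obtain ⟨N0, hN0⟩ := shift_up w hG
  have h1 := hN0 (max N0 m.natAbs) (le_max_left _ _)
  have h2 : (0 : ℤ) ≤ m + (max N0 m.natAbs : ℕ) * S.card := by
    have h3 : (m.natAbs : ℤ) ≤ ((max N0 m.natAbs : ℕ) : ℤ) := by
      exact_mod_cast le_max_right _ _
    have h4 : ((max N0 m.natAbs : ℕ) : ℤ) ≤ (max N0 m.natAbs : ℕ) * S.card := by
      exact_mod_cast Nat.le_mul_of_pos_right _ hS
    have h5 : -m ≤ (m.natAbs : ℤ) := by omega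
    linarith
  refine ⟨max N0 m.natAbs, (m + (max N0 m.natAbs : ℕ) * S.card).toNat, Int.toNat_of_nonneg h2, ?_⟩
  rw [← phi_ex (K := K) x hx, ← map_mul]
  apply sub_WV
  rw [Int.toNat_of_nonneg h2]
  exact h1

end fieldl

end main

/-- FIN: the filtered complexes are exact in low weights. -/
theorem fin : S_FIN := by
  intro K L ι _ _ _ _ _ x w hM m j hj
  have hx := hM.ne
  letI : Module (Lam K ι) L := Module.compHom L (phi K x hx).toRingHom
  have hsmul : ∀ (G : Lam K ι) (a : L), G • a = phi K x hx G * a := fun _ _ => rfl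
  obtain ⟨s0, hs0⟩ := PP_all (K := K) (ι := ι) w (Fintype.card ι + 1) j (by omega) L Unit
    (fun _ => (1 : L)) (fun _ => 0) (fun _ => 0) m
  refine ⟨s0, fun s hs c hc => ?_⟩
  obtain ⟨b, hb1, hb2⟩ := hs0 s hs c (fun S hS => by
    obtain ⟨G, hG, hGa⟩ := WSec_sub x hx w m s S (c S) (hc.1 S hS)
    refine ⟨fun _ => G, fun _ => ?_, ?_⟩
    · rw [sub_zero, sub_zero]
      exact hG
    · rw [Finset.univ_unique, Finset.sum_singleton, hsmul, mul_one]
      exact hGa.symm) (fun T hT => hc.2 T hT)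
  refine ⟨b, fun S hS => ?_, hb2⟩
  obtain ⟨G, hG, hGa⟩ := hb1 S (by omega)
  rw [hGa, Finset.univ_unique, Finset.sum_singleton, hsmul, mul_one]
  have h1 := hG default
  rw [sub_zero, sub_zero] at h1
  exact sub_WSec x hx w m s S (by omega) _ h1


end Pool.Agent.Y37.GS
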